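import Mathlib

/-!
MP_d05d56_co, Q1: the answer is NO.  In the triangle with vertices (0,0), (3,6), (-3,6) the three
rays from the interior point P = (0,2) to (3,6), (0,6), (-3,6) cut the triangle into three pieces of
equal area, with total cut length 14, while the two-ray equipartitions from these three boundary
points have total cut lengths sqrt 32 + sqrt 29, 2 * sqrt 17, sqrt 32 + sqrt 29, all less than 14.
-/

set_option autoImplicit false

open MeasureTheory Set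

namespace Pool.Agent.Results.MP_d05d56_co.ThinTriangle

/-- Euclidean distance in the plane. -/
noncomputable def ed (p q : ℝ × ℝ) : ℝ := Real.sqrt ((p.1 - q.1) ^ 2 + (p.2 - q.2) ^ 2)

/-- The closed set `K` cuts the convex region `C` into three pieces, each of area `|C| / 3`:
the interior of `C` minus `K` is the disjoint union of three connected open sets (its connected
components), each of area `|C| / 3`. -/
def CutsIntoThirds (C K : Set (ℝ × ℝ)) : Prop :=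
  ∃ D : Fin 3 → Set (ℝ × ℝ),
    (∀ i, IsOpen (D i) ∧ IsConnected (D i) ∧ volume (D i) = volume C / 3) ∧
    (∀ i j, i ≠ j → Disjoint (D i) (D j)) ∧ (⋃ i, D i) = interior C \ K

/-- A three-ray equipartition of `C` from the interior point `P` with boundary points `A i`. -/
def ThreeRay (C : Set (ℝ × ℝ)) (P : ℝ × ℝ) (A : Fin 3 → ℝ × ℝ) : Prop :=
  P ∈ interior C ∧ (∀ i, A i ∈ frontier C) ∧ CutsIntoThirds C (⋃ i, segment ℝ P (A i))

/-- A two-ray equipartition of `C` from the boundary point `X`, the two rays leaving `C` in the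
boundary points `B j`. -/
def TwoRay (C : Set (ℝ × ℝ)) (X : ℝ × ℝ) (B : Fin 2 → ℝ × ℝ) : Prop :=
  X ∈ frontier C ∧ (∀ j, B j ∈ frontier C) ∧ CutsIntoThirds C (⋃ j, segment ℝ X (B j))

/-- the triangle -/
def T : Set (ℝ × ℝ) := {p | 2 * |p.1| ≤ p.2 ∧ p.2 ≤ 6}

lemma T_isClosed : IsClosed T := by
  apply IsClosed.inter
  · exact isClosed_le (f := fun p : ℝ × ℝ => 2 * |p.1|) (g := fun p => p.2) (by fun_prop)
      (by fun_prop)
  · exact isClosed_le (f := fun p : ℝ × ℝ => p.2) (g := fun _ => 6) (by fun_prop) (by fun_prop)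

lemma T_bounded : T ⊆ Icc (-3) 3 ×ˢ Icc 0 6 := by
  rintro ⟨x, y⟩ ⟨h1, h2⟩
  simp only at h1 h2
  have := abs_nonneg x
  have h3 : |x| ≤ 3 := by linarith
  rw [abs_le] at h3
  refine ⟨⟨?_, ?_⟩, ⟨?_, ?_⟩⟩ <;> simp only <;> linarith

lemma T_compact : IsCompact T :=
  IsCompact.of_isClosed_subset (isCompact_Icc.prod isCompact_Icc) T_isClosed T_bounded

lemma T_convex : Convex ℝ T := by
  have h : T = {p : ℝ × ℝ | 2 * p.1 - p.2 ≤ 0} ∩ {p : ℝ × ℝ | -2 * p.1 - p.2 ≤ 0} ∩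
      {p : ℝ × ℝ | p.2 ≤ 6} := by
    ext ⟨x, y⟩
    simp only [T, mem_ofPred_eq, mem_inter_iff]
    constructor
    · rintro ⟨h1, h2⟩
      have a1 := le_abs_self x
      have a2 := neg_abs_le x
      exact ⟨⟨by linarith, by linarith⟩, h2⟩
    · rintro ⟨⟨h1, h2⟩, h3⟩
      refine ⟨?_, h3⟩
      have : |x| ≤ y / 2 := abs_le.mpr ⟨by linarith, by linarith⟩
      linarith
  rw [h]
  refine Convex.inter (Convex.inter ?_ ?_) ?_
  · exact convex_halfSpace_le ⟨by intros; simp; ring, by intros; simp; ring⟩ 0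
  · exact convex_halfSpace_le ⟨by intros; simp; ring, by intros; simp; ring⟩ 0
  · exact convex_halfSpace_le ⟨by intros; simp, by intros; simp⟩ 6

lemma T_interior : interior T = {p : ℝ × ℝ | 2 * |p.1| < p.2 ∧ p.2 < 6} := by
  apply Subset.antisymm
  · rintro ⟨x, y⟩ h
    rw [mem_interior_iff_mem_nhds, Metric.mem_nhds_iff] at h
    obtain ⟨e, he, hb⟩ := h
    have h1 : (x, y + e / 2) ∈ T := by
      apply hb
      rw [Metric.mem_ball, Prod.dist_eq]
      simp only [dist_self, Real.dist_eq, add_sub_cancel_left]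
      rw [abs_of_pos (by linarith)]
      exact max_lt he (by linarith)
    have h2 : (x, y - e / 2) ∈ T := by
      apply hb
      rw [Metric.mem_ball, Prod.dist_eq]
      simp only [dist_self, Real.dist_eq]
      rw [show y - e / 2 - y = -(e / 2) by ring, abs_neg, abs_of_pos (by linarith)]
      exact max_lt he (by linarith)
    have h3 := h1.2
    have h4 := h2.1
    simp only at h3 h4
    exact ⟨by simp only; linarith, by simp only; linarith⟩
  · apply interior_maximal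
    · rintro p ⟨h1, h2⟩
      exact ⟨h1.le, h2.le⟩
    · exact (isOpen_lt (f := fun p : ℝ × ℝ => 2 * |p.1|) (g := fun p => p.2) (by fun_prop)
        (by fun_prop)).inter (isOpen_lt (f := fun p : ℝ × ℝ => p.2) (g := fun _ => 6)
        (by fun_prop) (by fun_prop))

lemma mem_frontier_T {p : ℝ × ℝ} (h : p ∈ T) (h2 : ¬ (2 * |p.1| < p.2 ∧ p.2 < 6)) :
    p ∈ frontier T := by
  rw [frontier, T_isClosed.closure_eq, T_interior]
  exact ⟨h, h2⟩

/-- the open trapezoid `a < x < b`, `p x + q < y < r x + s` -/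
def Tr (a b p q r s : ℝ) : Set (ℝ × ℝ) :=
  {z | a < z.1 ∧ z.1 < b ∧ p * z.1 + q < z.2 ∧ z.2 < r * z.1 + s}

lemma vol_Tr {a b p q r s : ℝ} (hab : a ≤ b) (h : ∀ x, a < x → x < b → p * x + q ≤ r * x + s) :
    volume (Tr a b p q r s) =
      ENNReal.ofReal ((r - p) * (b ^ 2 - a ^ 2) / 2 + (s - q) * (b - a)) := by
  have h1 : Tr a b p q r s = regionBetween (fun x => p * x + q) (fun x => r * x + s) (Ioo a b) := by
    ext ⟨x, y⟩
    simp only [Tr, regionBetween, mem_ofPred_eq, mem_Ioo]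
    tauto
  rw [h1, Measure.volume_eq_prod, volume_regionBetween_eq_integral]
  · congr 1
    rw [← integral_Ioc_eq_integral_Ioo, ← intervalIntegral.integral_of_le hab]
    have h2 : (fun x : ℝ => ((fun x => r * x + s) - fun x => p * x + q) x) =
        fun x => (r - p) * x + (s - q) := by
      funext x
      simp only [Pi.sub_apply]
      ring
    rw [h2]
    rw [intervalIntegral.integral_add
      ((by fun_prop : Continuous fun x : ℝ => (r - p) * x).intervalIntegrable _ _)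
      ((by fun_prop : Continuous fun _ : ℝ => s - q).intervalIntegrable _ _)]
    rw [intervalIntegral.integral_const_mul, integral_id, intervalIntegral.integral_const]
    simp only [smul_eq_mul]
    ring
  · exact ((by fun_prop : Continuous fun x : ℝ => p * x + q).integrableOn_Icc (a := a) (b := b)).mono_set
      Ioo_subset_Icc_self
  · exact ((by fun_prop : Continuous fun x : ℝ => r * x + s).integrableOn_Icc (a := a) (b := b)).mono_set
      Ioo_subset_Icc_self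
  · exact measurableSet_Ioo
  · intro x hx
    exact h x hx.1 hx.2

lemma vert_null (c : ℝ) : volume {z : ℝ × ℝ | z.1 = c} = 0 := by
  have h : {z : ℝ × ℝ | z.1 = c} = {c} ×ˢ univ := by
    ext z
    simp
  rw [h, Measure.volume_eq_prod, Measure.prod_prod]
  simp

lemma vol_split (D : Set (ℝ × ℝ)) (c : ℝ) :
    volume D = volume (D ∩ {z | z.1 < c}) + volume (D ∩ {z | c < z.1}) := by
  have hm : MeasurableSet {z : ℝ × ℝ | z.1 < c} := measurableSet_lt (by fun_prop) (by fun_prop)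
  rw [← measure_inter_add_sdiff D hm]
  congr 1
  apply le_antisymm
  · calc volume (D \ {z | z.1 < c}) ≤ volume ((D ∩ {z | c < z.1}) ∪ {z | z.1 = c}) := by
          apply measure_mono
          rintro z ⟨h1, h2⟩
          simp only [mem_ofPred_eq, not_lt] at h2
          rcases h2.lt_or_eq with h3 | h3
          · exact Or.inl ⟨h1, h3⟩
          · exact Or.inr h3.symm
      _ ≤ volume (D ∩ {z | c < z.1}) + volume {z : ℝ × ℝ | z.1 = c} := measure_union_le _ _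
      _ = volume (D ∩ {z | c < z.1}) := by rw [vert_null, add_zero]
  · apply measure_mono
    rintro z ⟨h1, h2⟩
    exact ⟨h1, fun h3 => lt_asymm (show c < z.1 from h2) h3⟩

/-- a region which is a union of two trapezoids and a piece of a vertical line -/
lemma vol_two {D : Set (ℝ × ℝ)} {a c b p q r s p' q' r' s' : ℝ} (hac : a ≤ c) (hcb : c ≤ b)
    (h1 : D ∩ {z | z.1 < c} = Tr a c p q r s) (h2 : D ∩ {z | c < z.1} = Tr c b p' q' r' s')
    (h3 : ∀ x, a < x → x < c → p * x + q ≤ r * x + s)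
    (h4 : ∀ x, c < x → x < b → p' * x + q' ≤ r' * x + s')
    (h5 : (r - p) * (c ^ 2 - a ^ 2) / 2 + (s - q) * (c - a) +
      ((r' - p') * (b ^ 2 - c ^ 2) / 2 + (s' - q') * (b - c)) = 6)
    (h6 : 0 ≤ (r - p) * (c ^ 2 - a ^ 2) / 2 + (s - q) * (c - a))
    (h7 : 0 ≤ (r' - p') * (b ^ 2 - c ^ 2) / 2 + (s' - q') * (b - c)) :
    volume D = ENNReal.ofReal 6 := by
  rw [vol_split D c, h1, h2, vol_Tr hac h3, vol_Tr hcb h4, ← ENNReal.ofReal_add h6 h7, h5]

/-- open half-plane -/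
def H (a b c : ℝ) : Set (ℝ × ℝ) := {z | a * z.1 + b * z.2 < c}

lemma mem_H {a b c : ℝ} {z : ℝ × ℝ} : z ∈ H a b c ↔ a * z.1 + b * z.2 < c := Iff.rfl

lemma H_open (a b c : ℝ) : IsOpen (H a b c) :=
  isOpen_lt (f := fun z : ℝ × ℝ => a * z.1 + b * z.2) (g := fun _ => c) (by fun_prop) (by fun_prop)

lemma H_convex (a b c : ℝ) : Convex ℝ (H a b c) :=
  convex_halfSpace_lt (f := fun z : ℝ × ℝ => a * z.1 + b * z.2)
    ⟨by intros; simp; ring, by intros; simp; ring⟩ c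

lemma abs_two {x y : ℝ} : 2 * |x| < y ↔ 2 * x - y < 0 ∧ -2 * x - y < 0 := by
  constructor
  · intro h
    have a1 := le_abs_self x
    have a2 := neg_abs_le x
    exact ⟨by linarith, by linarith⟩
  · rintro ⟨h1, h2⟩
    have : |x| < y / 2 := abs_lt.mpr ⟨by linarith, by linarith⟩
    linarith

lemma mem_int {x y : ℝ} : (x, y) ∈ interior T ↔ (2 * x < y ∧ -2 * x < y) ∧ y < 6 := by
  rw [T_interior]
  simp only [mem_ofPred_eq, abs_two]
  constructor
  · rintro ⟨⟨h1, h2⟩, h3⟩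
    exact ⟨⟨by linarith, by linarith⟩, h3⟩
  · rintro ⟨⟨h1, h2⟩, h3⟩
    exact ⟨⟨by linarith, by linarith⟩, h3⟩

lemma vol_T : volume T / 3 = ENNReal.ofReal 6 := by
  have h0 : volume T = volume (interior T) := by
    rw [measure_interior_of_null_frontier]
    exact T_convex.addHaar_frontier _
  have h1 : volume T = ENNReal.ofReal 18 := by
    rw [h0, vol_split _ 0]
    have e1 : interior T ∩ {z | z.1 < 0} = Tr (-3) 0 (-2) 0 0 6 := by
      ext ⟨x, y⟩
      simp only [mem_inter_iff, mem_int, Tr, mem_ofPred_eq]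
      constructor
      · rintro ⟨⟨⟨h1, h2⟩, h3⟩, h4⟩
        exact ⟨by linarith, h4, by linarith, by linarith⟩
      · rintro ⟨h1, h2, h3, h4⟩
        exact ⟨⟨⟨by linarith, by linarith⟩, by linarith⟩, h2⟩
    have e2 : interior T ∩ {z | 0 < z.1} = Tr 0 3 2 0 0 6 := by
      ext ⟨x, y⟩
      simp only [mem_inter_iff, mem_int, Tr, mem_ofPred_eq]
      constructor
      · rintro ⟨⟨⟨h1, h2⟩, h3⟩, h4⟩
        exact ⟨h4, by linarith, by linarith, by linarith⟩
      · rintro ⟨h1, h2, h3, h4⟩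
        exact ⟨⟨⟨by linarith, by linarith⟩, by linarith⟩, h1⟩
    rw [e1, e2, vol_Tr (by norm_num) (by intro x h1 h2; linarith),
      vol_Tr (by norm_num) (by intro x h1 h2; linarith), ← ENNReal.ofReal_add (by norm_num)
        (by norm_num)]
    norm_num
  rw [h1]
  have h3 : (3 : ENNReal) = ENNReal.ofReal 3 := by simp
  rw [h3, ← ENNReal.ofReal_div_of_pos (by norm_num)]
  norm_num

/-- membership in a segment which is not vertical -/
lemma mem_seg {x₁ y₁ x₂ y₂ x y : ℝ} (h : x₁ < x₂) :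
    (x, y) ∈ segment ℝ ((x₁, y₁) : ℝ × ℝ) (x₂, y₂) ↔
      x₁ ≤ x ∧ x ≤ x₂ ∧ (y - y₁) * (x₂ - x₁) = (y₂ - y₁) * (x - x₁) := by
  rw [segment_eq_image]
  simp only [mem_image, mem_Icc, Prod.ext_iff, Prod.fst_add, Prod.smul_fst, smul_eq_mul,
    Prod.snd_add, Prod.smul_snd]
  constructor
  · rintro ⟨t, ⟨h0, h1⟩, h2, h3⟩
    subst h2
    subst h3
    refine ⟨by nlinarith, by nlinarith, by ring⟩
  · rintro ⟨h1, h2, h3⟩
    have hd : 0 < x₂ - x₁ := by linarith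
    refine ⟨(x - x₁) / (x₂ - x₁), ⟨div_nonneg (by linarith) hd.le,
      (div_le_one hd).mpr (by linarith)⟩, ?_, ?_⟩
    · field_simp
      ring
    · field_simp
      linarith

lemma mem_seg' {x₁ y₁ x₂ y₂ x y : ℝ} (h : x₂ < x₁) :
    (x, y) ∈ segment ℝ ((x₁, y₁) : ℝ × ℝ) (x₂, y₂) ↔
      x₂ ≤ x ∧ x ≤ x₁ ∧ (y - y₂) * (x₁ - x₂) = (y₁ - y₂) * (x - x₂) := by
  rw [segment_symm, mem_seg h]

lemma mem_seg_vert {a b x y : ℝ} (h : a ≤ b) :
    (x, y) ∈ segment ℝ ((0, a) : ℝ × ℝ) (0, b) ↔ x = 0 ∧ a ≤ y ∧ y ≤ b := by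
  rw [segment_eq_image]
  simp only [mem_image, mem_Icc, Prod.ext_iff, Prod.fst_add, Prod.smul_fst, smul_eq_mul,
    Prod.snd_add, Prod.smul_snd]
  constructor
  · rintro ⟨t, ⟨h0, h1⟩, h2, h3⟩
    subst h3
    refine ⟨by linarith, by nlinarith, by nlinarith⟩
  · rintro ⟨h1, h2, h3⟩
    rcases h.lt_or_eq with h4 | h4
    · have hd : 0 < b - a := by linarith
      refine ⟨(y - a) / (b - a), ⟨div_nonneg (by linarith) hd.le,
        (div_le_one hd).mpr (by linarith)⟩, by linarith, ?_⟩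
      field_simp
      ring
    · exact ⟨0, ⟨le_refl _, zero_le_one⟩, by linarith, by linarith⟩

/-- assembling three pieces -/
lemma cuts {K D₀ D₁ D₂ : Set (ℝ × ℝ)} (o0 : IsOpen D₀) (o1 : IsOpen D₁) (o2 : IsOpen D₂)
    (c0 : IsConnected D₀) (c1 : IsConnected D₁) (c2 : IsConnected D₂)
    (v0 : volume D₀ = ENNReal.ofReal 6) (v1 : volume D₁ = ENNReal.ofReal 6)
    (v2 : volume D₂ = ENNReal.ofReal 6) (d01 : ∀ z, z ∈ D₀ → z ∈ D₁ → False)
    (d02 : ∀ z, z ∈ D₀ → z ∈ D₂ → False) (d12 : ∀ z, z ∈ D₁ → z ∈ D₂ → False)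
    (hu : ∀ z, (z ∈ D₀ ∨ z ∈ D₁ ∨ z ∈ D₂) ↔ z ∈ interior T ∧ z ∉ K) : CutsIntoThirds T K := by
  refine ⟨![D₀, D₁, D₂], ?_, ?_, ?_⟩
  · intro i
    rw [vol_T]
    fin_cases i
    · exact ⟨o0, c0, v0⟩
    · exact ⟨o1, c1, v1⟩
    · exact ⟨o2, c2, v2⟩
  · intro i j hij
    rw [Set.disjoint_left]
    intro z hi hj
    fin_cases i <;> fin_cases j <;> simp at hij hi hj
    · exact d01 z hi hj
    · exact d02 z hi hj
    · exact d01 z hj hi
    · exact d12 z hi hj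
    · exact d02 z hj hi
    · exact d12 z hj hi
  · ext z
    rw [mem_iUnion, mem_sdiff, ← hu z]
    constructor
    · rintro ⟨i, hi⟩
      fin_cases i
      · exact Or.inl hi
      · exact Or.inr (Or.inl hi)
      · exact Or.inr (Or.inr hi)
    · rintro (h | h | h)
      · exact ⟨0, h⟩
      · exact ⟨1, h⟩
      · exact ⟨2, h⟩

lemma H3_open {a b c d e f g h i : ℝ} : IsOpen (H a b c ∩ H d e f ∩ H g h i) :=
  ((H_open _ _ _).inter (H_open _ _ _)).inter (H_open _ _ _)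

lemma H3_conn {a b c d e f g h i : ℝ} (z : ℝ × ℝ) (hz : z ∈ H a b c ∩ H d e f ∩ H g h i) :
    IsConnected (H a b c ∩ H d e f ∩ H g h i) :=
  ⟨⟨z, hz⟩, (((H_convex _ _ _).inter (H_convex _ _ _)).inter (H_convex _ _ _)).isPreconnected⟩

/-- first configuration: the three rays from `(0, 2)` -/
lemma cut_P : CutsIntoThirds T (segment ℝ ((0, 2) : ℝ × ℝ) (3, 6) ∪
    (segment ℝ ((0, 2) : ℝ × ℝ) (0, 6) ∪ segment ℝ ((0, 2) : ℝ × ℝ) (-3, 6))) := by
  refine cuts (D₀ := H (-1) 0 0 ∩ H 0 1 6 ∩ H (4 / 3) (-1) (-2))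
    (D₁ := H 1 0 0 ∩ H 0 1 6 ∩ H (-4 / 3) (-1) (-2))
    (D₂ := (H 2 (-1) 0 ∩ H (-2) (-1) 0 ∩ H (-4 / 3) 1 2) ∪
      (H 2 (-1) 0 ∩ H (-2) (-1) 0 ∩ H (4 / 3) 1 2)) H3_open H3_open (H3_open.union H3_open)
    (H3_conn (1, 5) ?_) (H3_conn (-1, 5) ?_) ?_ ?_ ?_ ?_ ?_ ?_ ?_ ?_
  · simp only [mem_inter_iff, mem_H]; norm_num
  · simp only [mem_inter_iff, mem_H]; norm_num
  · refine IsConnected.union ⟨(0, 1), ?_⟩ (H3_conn (0, 1) ?_) (H3_conn (0, 1) ?_) <;>
      (simp only [mem_inter_iff, mem_H]; norm_num)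
  · have e : H (-1) 0 0 ∩ H 0 1 6 ∩ H (4 / 3) (-1) (-2) = Tr 0 3 (4 / 3) 2 0 6 := by
      ext ⟨x, y⟩
      simp only [mem_inter_iff, mem_H, Tr, mem_ofPred_eq]
      constructor
      · rintro ⟨⟨h1, h2⟩, h3⟩
        exact ⟨by linarith, by linarith, by linarith, by linarith⟩
      · rintro ⟨h1, h2, h3, h4⟩
        exact ⟨⟨by linarith, by linarith⟩, by linarith⟩
    rw [e, vol_Tr (by norm_num) (by intro x h1 h2; linarith)]
    norm_num
  · have e : H 1 0 0 ∩ H 0 1 6 ∩ H (-4 / 3) (-1) (-2) = Tr (-3) 0 (-4 / 3) 2 0 6 := by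
      ext ⟨x, y⟩
      simp only [mem_inter_iff, mem_H, Tr, mem_ofPred_eq]
      constructor
      · rintro ⟨⟨h1, h2⟩, h3⟩
        exact ⟨by linarith, by linarith, by linarith, by linarith⟩
      · rintro ⟨h1, h2, h3, h4⟩
        exact ⟨⟨by linarith, by linarith⟩, by linarith⟩
    rw [e, vol_Tr (by norm_num) (by intro x h1 h2; linarith)]
    norm_num
  · refine vol_two (a := -3) (c := 0) (b := 3) (p := -2) (q := 0) (r := -4 / 3) (s := 2)
      (p' := 2) (q' := 0) (r' := 4 / 3) (s' := 2) (by norm_num) (by norm_num) ?_ ?_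
      (by intro x h1 h2; linarith) (by intro x h1 h2; linarith) (by norm_num) (by norm_num)
      (by norm_num)
    · ext ⟨x, y⟩
      simp only [mem_inter_iff, mem_union, mem_H, Tr, mem_ofPred_eq]
      constructor
      · rintro ⟨⟨⟨h1, h2⟩, h3⟩ | ⟨⟨h1, h2⟩, h3⟩, h4⟩ <;>
          exact ⟨by linarith, by linarith, by linarith, by linarith⟩
      · rintro ⟨h1, h2, h3, h4⟩
        exact ⟨Or.inr ⟨⟨by linarith, by linarith⟩, by linarith⟩, by linarith⟩
    · ext ⟨x, y⟩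
      simp only [mem_inter_iff, mem_union, mem_H, Tr, mem_ofPred_eq]
      constructor
      · rintro ⟨⟨⟨h1, h2⟩, h3⟩ | ⟨⟨h1, h2⟩, h3⟩, h4⟩ <;>
          exact ⟨by linarith, by linarith, by linarith, by linarith⟩
      · rintro ⟨h1, h2, h3, h4⟩
        exact ⟨Or.inl ⟨⟨by linarith, by linarith⟩, by linarith⟩, by linarith⟩
  · rintro ⟨x, y⟩ h k
    simp only [mem_inter_iff, mem_H] at h k
    linarith [h.1.1, k.1.1]
  · rintro ⟨x, y⟩ h k
    simp only [mem_inter_iff, mem_union, mem_H] at h k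
    rcases k with k | k
    · linarith [h.1.1, h.2, k.2]
    · linarith [h.1.1, h.2, k.2]
  · rintro ⟨x, y⟩ h k
    simp only [mem_inter_iff, mem_union, mem_H] at h k
    rcases k with k | k
    · linarith [h.1.1, h.2, k.2]
    · linarith [h.1.1, h.2, k.2]
  · rintro ⟨x, y⟩
    simp only [mem_union]
    rw [mem_int, mem_seg (by norm_num), mem_seg_vert (by norm_num), mem_seg' (by norm_num)]
    simp only [mem_inter_iff, mem_H]
    constructor
    · rintro (⟨⟨h1, h2⟩, h3⟩ | ⟨⟨h1, h2⟩, h3⟩ | ⟨⟨h1, h2⟩, h3⟩ | ⟨⟨h1, h2⟩, h3⟩)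
      · refine ⟨⟨⟨by linarith, by linarith⟩, by linarith⟩, ?_⟩
        rintro (⟨k1, k2, k3⟩ | ⟨k1, k2, k3⟩ | ⟨k1, k2, k3⟩) <;> linarith
      · refine ⟨⟨⟨by linarith, by linarith⟩, by linarith⟩, ?_⟩
        rintro (⟨k1, k2, k3⟩ | ⟨k1, k2, k3⟩ | ⟨k1, k2, k3⟩) <;> linarith
      · refine ⟨⟨⟨by linarith, by linarith⟩, by linarith⟩, ?_⟩
        rintro (⟨k1, k2, k3⟩ | ⟨k1, k2, k3⟩ | ⟨k1, k2, k3⟩) <;> linarith
      · refine ⟨⟨⟨by linarith, by linarith⟩, by linarith⟩, ?_⟩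
        rintro (⟨k1, k2, k3⟩ | ⟨k1, k2, k3⟩ | ⟨k1, k2, k3⟩) <;> linarith
    · rintro ⟨⟨⟨h1, h2⟩, h3⟩, h4⟩
      push Not at h4
      obtain ⟨g1, g2, g3⟩ := h4
      rcases lt_trichotomy x 0 with hx | hx | hx
      · rcases lt_trichotomy y (2 - 4 / 3 * x) with hy | hy | hy
        · exact Or.inr (Or.inr (Or.inr ⟨⟨by linarith, by linarith⟩, by linarith⟩))
        · exact absurd (by linarith) (g3 (by linarith) hx.le)
        · exact Or.inr (Or.inl ⟨⟨by linarith, by linarith⟩, by linarith⟩)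
      · have hy : y < 2 := by
          by_contra hc
          have := g2 hx (by linarith)
          linarith
        exact Or.inr (Or.inr (Or.inr ⟨⟨by linarith, by linarith⟩, by linarith⟩))
      · rcases lt_trichotomy y (2 + 4 / 3 * x) with hy | hy | hy
        · exact Or.inr (Or.inr (Or.inl ⟨⟨by linarith, by linarith⟩, by linarith⟩))
        · exact absurd (by linarith) (g1 hx.le (by linarith))
        · exact Or.inl ⟨⟨by linarith, by linarith⟩, by linarith⟩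

lemma H4_open {a b c d e f g h i j k l : ℝ} :
    IsOpen (H a b c ∩ H d e f ∩ (H g h i ∩ H j k l)) :=
  ((H_open _ _ _).inter (H_open _ _ _)).inter ((H_open _ _ _).inter (H_open _ _ _))

lemma H4_conn {a b c d e f g h i j k l : ℝ} (z : ℝ × ℝ)
    (hz : z ∈ H a b c ∩ H d e f ∩ (H g h i ∩ H j k l)) :
    IsConnected (H a b c ∩ H d e f ∩ (H g h i ∩ H j k l)) :=
  ⟨⟨z, hz⟩, (((H_convex _ _ _).inter (H_convex _ _ _)).inter
    ((H_convex _ _ _).inter (H_convex _ _ _))).isPreconnected⟩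

/-- second configuration: the two rays from `(0, 6)` -/
lemma cut_mid : CutsIntoThirds T (segment ℝ ((0, 6) : ℝ × ℝ) (1, 2) ∪
    segment ℝ ((0, 6) : ℝ × ℝ) (-1, 2)) := by
  refine cuts (D₀ := H (-4) (-1) (-6) ∩ H 2 (-1) 0 ∩ H 0 1 6)
    (D₁ := H 4 (-1) (-6) ∩ H (-2) (-1) 0 ∩ H 0 1 6)
    (D₂ := H 2 (-1) 0 ∩ H (-2) (-1) 0 ∩ (H 4 1 6 ∩ H (-4) 1 6)) H3_open H3_open H4_open
    (H3_conn (1, 5) ?_) (H3_conn (-1, 5) ?_) (H4_conn (0, 1) ?_) ?_ ?_ ?_ ?_ ?_ ?_ ?_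
  · simp only [mem_inter_iff, mem_H]; norm_num
  · simp only [mem_inter_iff, mem_H]; norm_num
  · simp only [mem_inter_iff, mem_H]; norm_num
  · refine vol_two (a := 0) (c := 1) (b := 3) (p := -4) (q := 6) (r := 0) (s := 6)
      (p' := 2) (q' := 0) (r' := 0) (s' := 6) (by norm_num) (by norm_num) ?_ ?_
      (by intro x h1 h2; linarith) (by intro x h1 h2; linarith) (by norm_num) (by norm_num)
      (by norm_num)
    · ext ⟨x, y⟩
      simp only [mem_inter_iff, mem_H, Tr, mem_ofPred_eq]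
      constructor
      · rintro ⟨h0, h4⟩
        refine ⟨?_, ?_, ?_, ?_⟩ <;> (try rcases h0 with ⟨⟨h1, h2⟩, h3⟩) <;> linarith
      · rintro ⟨h1, h2, h3, h4⟩
        refine ⟨⟨⟨?_, ?_⟩, ?_⟩, ?_⟩ <;> linarith
    · ext ⟨x, y⟩
      simp only [mem_inter_iff, mem_H, Tr, mem_ofPred_eq]
      constructor
      · rintro ⟨h0, h4⟩
        refine ⟨?_, ?_, ?_, ?_⟩ <;> (try rcases h0 with ⟨⟨h1, h2⟩, h3⟩) <;> linarith
      · rintro ⟨h1, h2, h3, h4⟩
        refine ⟨⟨⟨?_, ?_⟩, ?_⟩, ?_⟩ <;> linarith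
  · refine vol_two (a := -3) (c := -1) (b := 0) (p := -2) (q := 0) (r := 0) (s := 6)
      (p' := 4) (q' := 6) (r' := 0) (s' := 6) (by norm_num) (by norm_num) ?_ ?_
      (by intro x h1 h2; linarith) (by intro x h1 h2; linarith) (by norm_num) (by norm_num)
      (by norm_num)
    · ext ⟨x, y⟩
      simp only [mem_inter_iff, mem_H, Tr, mem_ofPred_eq]
      constructor
      · rintro ⟨h0, h4⟩
        refine ⟨?_, ?_, ?_, ?_⟩ <;> (try rcases h0 with ⟨⟨h1, h2⟩, h3⟩) <;> linarith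
      · rintro ⟨h1, h2, h3, h4⟩
        refine ⟨⟨⟨?_, ?_⟩, ?_⟩, ?_⟩ <;> linarith
    · ext ⟨x, y⟩
      simp only [mem_inter_iff, mem_H, Tr, mem_ofPred_eq]
      constructor
      · rintro ⟨h0, h4⟩
        refine ⟨?_, ?_, ?_, ?_⟩ <;> (try rcases h0 with ⟨⟨h1, h2⟩, h3⟩) <;> linarith
      · rintro ⟨h1, h2, h3, h4⟩
        refine ⟨⟨⟨?_, ?_⟩, ?_⟩, ?_⟩ <;> linarith
  · refine vol_two (a := -1) (c := 0) (b := 1) (p := -2) (q := 0) (r := 4) (s := 6)
      (p' := 2) (q' := 0) (r' := -4) (s' := 6) (by norm_num) (by norm_num) ?_ ?_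
      (by intro x h1 h2; linarith) (by intro x h1 h2; linarith) (by norm_num) (by norm_num)
      (by norm_num)
    · ext ⟨x, y⟩
      simp only [mem_inter_iff, mem_H, Tr, mem_ofPred_eq]
      constructor
      · rintro ⟨⟨⟨h1, h2⟩, h3, h4⟩, h5⟩
        refine ⟨?_, ?_, ?_, ?_⟩ <;> linarith
      · rintro ⟨h1, h2, h3, h4⟩
        refine ⟨⟨⟨?_, ?_⟩, ?_, ?_⟩, ?_⟩ <;> linarith
    · ext ⟨x, y⟩
      simp only [mem_inter_iff, mem_H, Tr, mem_ofPred_eq]
      constructor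
      · rintro ⟨⟨⟨h1, h2⟩, h3, h4⟩, h5⟩
        refine ⟨?_, ?_, ?_, ?_⟩ <;> linarith
      · rintro ⟨h1, h2, h3, h4⟩
        refine ⟨⟨⟨?_, ?_⟩, ?_, ?_⟩, ?_⟩ <;> linarith
  · rintro ⟨x, y⟩ h k
    simp only [mem_inter_iff, mem_H] at h k
    linarith [h.1.1, h.2, k.1.1]
  · rintro ⟨x, y⟩ h k
    simp only [mem_inter_iff, mem_H] at h k
    linarith [h.1.1, h.2, k.2.1]
  · rintro ⟨x, y⟩ h k
    simp only [mem_inter_iff, mem_H] at h k
    linarith [h.1.1, h.2, k.2.2]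
  · rintro ⟨x, y⟩
    simp only [mem_union]
    rw [mem_int, mem_seg (by norm_num), mem_seg' (by norm_num)]
    simp only [mem_inter_iff, mem_H]
    constructor
    · rintro (⟨⟨h1, h2⟩, h3⟩ | ⟨⟨h1, h2⟩, h3⟩ | ⟨⟨h1, h2⟩, h3, h4⟩)
      · refine ⟨⟨⟨by linarith, by linarith⟩, by linarith⟩, ?_⟩
        rintro (⟨k1, k2, k3⟩ | ⟨k1, k2, k3⟩) <;> linarith
      · refine ⟨⟨⟨by linarith, by linarith⟩, by linarith⟩, ?_⟩
        rintro (⟨k1, k2, k3⟩ | ⟨k1, k2, k3⟩) <;> linarith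
      · refine ⟨⟨⟨by linarith, by linarith⟩, by linarith⟩, ?_⟩
        rintro (⟨k1, k2, k3⟩ | ⟨k1, k2, k3⟩) <;> linarith
    · rintro ⟨⟨⟨h1, h2⟩, h3⟩, h4⟩
      push Not at h4
      obtain ⟨g1, g3⟩ := h4
      rcases le_or_gt 0 x with hx | hx
      · rcases lt_trichotomy y (6 - 4 * x) with hy | hy | hy
        · exact Or.inr (Or.inr ⟨⟨by linarith, by linarith⟩, by linarith, by linarith⟩)
        · exact absurd (by linarith) (g1 hx (by linarith))
        · exact Or.inl ⟨⟨by linarith, by linarith⟩, by linarith⟩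
      · rcases lt_trichotomy y (6 + 4 * x) with hy | hy | hy
        · exact Or.inr (Or.inr ⟨⟨by linarith, by linarith⟩, by linarith, by linarith⟩)
        · exact absurd (by linarith) (g3 (by linarith) hx.le)
        · exact Or.inr (Or.inl ⟨⟨by linarith, by linarith⟩, by linarith⟩)

/-- the two rays from `(3, 6)` -/
lemma cut_right : CutsIntoThirds T (segment ℝ ((3, 6) : ℝ × ℝ) (-1, 2) ∪
    segment ℝ ((3, 6) : ℝ × ℝ) (-2, 4)) := by
  refine cuts (D₀ := H 2 (-1) 0 ∩ H (-2) (-1) 0 ∩ H (-1) 1 3)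
    (D₁ := H 1 (-1) (-3) ∩ H (-2) (-1) 0 ∩ H (-2 / 5) 1 (24 / 5))
    (D₂ := H (2 / 5) (-1) (-24 / 5) ∩ H (-2) (-1) 0 ∩ H 0 1 6) H3_open H3_open H3_open
    (H3_conn (0, 1) ?_) (H3_conn (-1, 3) ?_) (H3_conn (-2, 5) ?_) ?_ ?_ ?_ ?_ ?_ ?_ ?_
  · simp only [mem_inter_iff, mem_H]; norm_num
  · simp only [mem_inter_iff, mem_H]; norm_num
  · simp only [mem_inter_iff, mem_H]; norm_num
  · refine vol_two (a := -1) (c := 0) (b := 3) (p := -2) (q := 0) (r := 1) (s := 3)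
      (p' := 2) (q' := 0) (r' := 1) (s' := 3) (by norm_num) (by norm_num) ?_ ?_
      (by intro x h1 h2; linarith) (by intro x h1 h2; linarith) (by norm_num) (by norm_num)
      (by norm_num)
    · ext ⟨x, y⟩
      simp only [mem_inter_iff, mem_H, Tr, mem_ofPred_eq]
      constructor
      · rintro ⟨h0, h4⟩
        refine ⟨?_, ?_, ?_, ?_⟩ <;> (try rcases h0 with ⟨⟨h1, h2⟩, h3⟩) <;> linarith
      · rintro ⟨h1, h2, h3, h4⟩
        refine ⟨⟨⟨?_, ?_⟩, ?_⟩, ?_⟩ <;> linarith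
    · ext ⟨x, y⟩
      simp only [mem_inter_iff, mem_H, Tr, mem_ofPred_eq]
      constructor
      · rintro ⟨h0, h4⟩
        refine ⟨?_, ?_, ?_, ?_⟩ <;> (try rcases h0 with ⟨⟨h1, h2⟩, h3⟩) <;> linarith
      · rintro ⟨h1, h2, h3, h4⟩
        refine ⟨⟨⟨?_, ?_⟩, ?_⟩, ?_⟩ <;> linarith
  · refine vol_two (a := -2) (c := -1) (b := 3) (p := -2) (q := 0) (r := 2 / 5) (s := 24 / 5)
      (p' := 1) (q' := 3) (r' := 2 / 5) (s' := 24 / 5) (by norm_num) (by norm_num) ?_ ?_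
      (by intro x h1 h2; linarith) (by intro x h1 h2; linarith) (by norm_num) (by norm_num)
      (by norm_num)
    · ext ⟨x, y⟩
      simp only [mem_inter_iff, mem_H, Tr, mem_ofPred_eq]
      constructor
      · rintro ⟨h0, h4⟩
        refine ⟨?_, ?_, ?_, ?_⟩ <;> (try rcases h0 with ⟨⟨h1, h2⟩, h3⟩) <;> linarith
      · rintro ⟨h1, h2, h3, h4⟩
        refine ⟨⟨⟨?_, ?_⟩, ?_⟩, ?_⟩ <;> linarith
    · ext ⟨x, y⟩
      simp only [mem_inter_iff, mem_H, Tr, mem_ofPred_eq]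
      constructor
      · rintro ⟨h0, h4⟩
        refine ⟨?_, ?_, ?_, ?_⟩ <;> (try rcases h0 with ⟨⟨h1, h2⟩, h3⟩) <;> linarith
      · rintro ⟨h1, h2, h3, h4⟩
        refine ⟨⟨⟨?_, ?_⟩, ?_⟩, ?_⟩ <;> linarith
  · refine vol_two (a := -3) (c := -2) (b := 3) (p := -2) (q := 0) (r := 0) (s := 6)
      (p' := 2 / 5) (q' := 24 / 5) (r' := 0) (s' := 6) (by norm_num) (by norm_num) ?_ ?_
      (by intro x h1 h2; linarith) (by intro x h1 h2; linarith) (by norm_num) (by norm_num)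
      (by norm_num)
    · ext ⟨x, y⟩
      simp only [mem_inter_iff, mem_H, Tr, mem_ofPred_eq]
      constructor
      · rintro ⟨h0, h4⟩
        refine ⟨?_, ?_, ?_, ?_⟩ <;> (try rcases h0 with ⟨⟨h1, h2⟩, h3⟩) <;> linarith
      · rintro ⟨h1, h2, h3, h4⟩
        refine ⟨⟨⟨?_, ?_⟩, ?_⟩, ?_⟩ <;> linarith
    · ext ⟨x, y⟩
      simp only [mem_inter_iff, mem_H, Tr, mem_ofPred_eq]
      constructor
      · rintro ⟨h0, h4⟩
        refine ⟨?_, ?_, ?_, ?_⟩ <;> (try rcases h0 with ⟨⟨h1, h2⟩, h3⟩) <;> linarith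
      · rintro ⟨h1, h2, h3, h4⟩
        refine ⟨⟨⟨?_, ?_⟩, ?_⟩, ?_⟩ <;> linarith
  · rintro ⟨x, y⟩ h k
    simp only [mem_inter_iff, mem_H] at h k
    linarith [h.2, k.1.1]
  · rintro ⟨x, y⟩ h k
    simp only [mem_inter_iff, mem_H] at h k
    linarith [h.2, h.1.1, h.1.2, k.1.1]
  · rintro ⟨x, y⟩ h k
    simp only [mem_inter_iff, mem_H] at h k
    linarith [h.2, k.1.1]
  · rintro ⟨x, y⟩
    simp only [mem_union]
    rw [mem_int, mem_seg' (by norm_num), mem_seg' (by norm_num)]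
    simp only [mem_inter_iff, mem_H]
    constructor
    · rintro (⟨⟨h1, h2⟩, h3⟩ | ⟨⟨h1, h2⟩, h3⟩ | ⟨⟨h1, h2⟩, h3⟩)
      · refine ⟨⟨⟨by linarith, by linarith⟩, by linarith⟩, ?_⟩
        rintro (⟨k1, k2, k3⟩ | ⟨k1, k2, k3⟩) <;> linarith
      · refine ⟨⟨⟨by linarith, by linarith⟩, by linarith⟩, ?_⟩
        rintro (⟨k1, k2, k3⟩ | ⟨k1, k2, k3⟩) <;> linarith
      · refine ⟨⟨⟨by linarith, by linarith⟩, by linarith⟩, ?_⟩
        rintro (⟨k1, k2, k3⟩ | ⟨k1, k2, k3⟩) <;> linarith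
    · rintro ⟨⟨⟨h1, h2⟩, h3⟩, h4⟩
      push Not at h4
      obtain ⟨g1, g3⟩ := h4
      rcases lt_trichotomy y (x + 3) with hy | hy | hy
      · exact Or.inl ⟨⟨by linarith, by linarith⟩, by linarith⟩
      · exact absurd (by linarith) (g1 (by linarith) (by linarith))
      · rcases lt_trichotomy y (2 / 5 * x + 24 / 5) with hz | hz | hz
        · exact Or.inr (Or.inl ⟨⟨by linarith, by linarith⟩, by linarith⟩)
        · exact absurd (by linarith) (g3 (by linarith) (by linarith))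
        · exact Or.inr (Or.inr ⟨⟨by linarith, by linarith⟩, by linarith⟩)

/-- the two rays from `(-3, 6)` -/
lemma cut_left : CutsIntoThirds T (segment ℝ ((-3, 6) : ℝ × ℝ) (1, 2) ∪
    segment ℝ ((-3, 6) : ℝ × ℝ) (2, 4)) := by
  refine cuts (D₀ := H 2 (-1) 0 ∩ H (-2) (-1) 0 ∩ H 1 1 3)
    (D₁ := H (-1) (-1) (-3) ∩ H 2 (-1) 0 ∩ H (2 / 5) 1 (24 / 5))
    (D₂ := H (-2 / 5) (-1) (-24 / 5) ∩ H 2 (-1) 0 ∩ H 0 1 6) H3_open H3_open H3_open
    (H3_conn (0, 1) ?_) (H3_conn (1, 3) ?_) (H3_conn (2, 5) ?_) ?_ ?_ ?_ ?_ ?_ ?_ ?_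
  · simp only [mem_inter_iff, mem_H]; norm_num
  · simp only [mem_inter_iff, mem_H]; norm_num
  · simp only [mem_inter_iff, mem_H]; norm_num
  · refine vol_two (a := -3) (c := 0) (b := 1) (p := -2) (q := 0) (r := -1) (s := 3)
      (p' := 2) (q' := 0) (r' := -1) (s' := 3) (by norm_num) (by norm_num) ?_ ?_
      (by intro x h1 h2; linarith) (by intro x h1 h2; linarith) (by norm_num) (by norm_num)
      (by norm_num)
    · ext ⟨x, y⟩
      simp only [mem_inter_iff, mem_H, Tr, mem_ofPred_eq]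
      constructor
      · rintro ⟨h0, h4⟩
        refine ⟨?_, ?_, ?_, ?_⟩ <;> (try rcases h0 with ⟨⟨h1, h2⟩, h3⟩) <;> linarith
      · rintro ⟨h1, h2, h3, h4⟩
        refine ⟨⟨⟨?_, ?_⟩, ?_⟩, ?_⟩ <;> linarith
    · ext ⟨x, y⟩
      simp only [mem_inter_iff, mem_H, Tr, mem_ofPred_eq]
      constructor
      · rintro ⟨h0, h4⟩
        refine ⟨?_, ?_, ?_, ?_⟩ <;> (try rcases h0 with ⟨⟨h1, h2⟩, h3⟩) <;> linarith
      · rintro ⟨h1, h2, h3, h4⟩
        refine ⟨⟨⟨?_, ?_⟩, ?_⟩, ?_⟩ <;> linarith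
  · refine vol_two (a := -3) (c := 1) (b := 2) (p := -1) (q := 3) (r := -2 / 5) (s := 24 / 5)
      (p' := 2) (q' := 0) (r' := -2 / 5) (s' := 24 / 5) (by norm_num) (by norm_num) ?_ ?_
      (by intro x h1 h2; linarith) (by intro x h1 h2; linarith) (by norm_num) (by norm_num)
      (by norm_num)
    · ext ⟨x, y⟩
      simp only [mem_inter_iff, mem_H, Tr, mem_ofPred_eq]
      constructor
      · rintro ⟨h0, h4⟩
        refine ⟨?_, ?_, ?_, ?_⟩ <;> (try rcases h0 with ⟨⟨h1, h2⟩, h3⟩) <;> linarith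
      · rintro ⟨h1, h2, h3, h4⟩
        refine ⟨⟨⟨?_, ?_⟩, ?_⟩, ?_⟩ <;> linarith
    · ext ⟨x, y⟩
      simp only [mem_inter_iff, mem_H, Tr, mem_ofPred_eq]
      constructor
      · rintro ⟨h0, h4⟩
        refine ⟨?_, ?_, ?_, ?_⟩ <;> (try rcases h0 with ⟨⟨h1, h2⟩, h3⟩) <;> linarith
      · rintro ⟨h1, h2, h3, h4⟩
        refine ⟨⟨⟨?_, ?_⟩, ?_⟩, ?_⟩ <;> linarith
  · refine vol_two (a := -3) (c := 2) (b := 3) (p := -2 / 5) (q := 24 / 5) (r := 0) (s := 6)
      (p' := 2) (q' := 0) (r' := 0) (s' := 6) (by norm_num) (by norm_num) ?_ ?_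
      (by intro x h1 h2; linarith) (by intro x h1 h2; linarith) (by norm_num) (by norm_num)
      (by norm_num)
    · ext ⟨x, y⟩
      simp only [mem_inter_iff, mem_H, Tr, mem_ofPred_eq]
      constructor
      · rintro ⟨h0, h4⟩
        refine ⟨?_, ?_, ?_, ?_⟩ <;> (try rcases h0 with ⟨⟨h1, h2⟩, h3⟩) <;> linarith
      · rintro ⟨h1, h2, h3, h4⟩
        refine ⟨⟨⟨?_, ?_⟩, ?_⟩, ?_⟩ <;> linarith
    · ext ⟨x, y⟩
      simp only [mem_inter_iff, mem_H, Tr, mem_ofPred_eq]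
      constructor
      · rintro ⟨h0, h4⟩
        refine ⟨?_, ?_, ?_, ?_⟩ <;> (try rcases h0 with ⟨⟨h1, h2⟩, h3⟩) <;> linarith
      · rintro ⟨h1, h2, h3, h4⟩
        refine ⟨⟨⟨?_, ?_⟩, ?_⟩, ?_⟩ <;> linarith
  · rintro ⟨x, y⟩ h k
    simp only [mem_inter_iff, mem_H] at h k
    linarith [h.2, k.1.1]
  · rintro ⟨x, y⟩ h k
    simp only [mem_inter_iff, mem_H] at h k
    linarith [h.2, h.1.1, h.1.2, k.1.1]
  · rintro ⟨x, y⟩ h k
    simp only [mem_inter_iff, mem_H] at h k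
    linarith [h.2, k.1.1]
  · rintro ⟨x, y⟩
    simp only [mem_union]
    rw [mem_int, mem_seg (by norm_num), mem_seg (by norm_num)]
    simp only [mem_inter_iff, mem_H]
    constructor
    · rintro (⟨⟨h1, h2⟩, h3⟩ | ⟨⟨h1, h2⟩, h3⟩ | ⟨⟨h1, h2⟩, h3⟩)
      · refine ⟨⟨⟨by linarith, by linarith⟩, by linarith⟩, ?_⟩
        rintro (⟨k1, k2, k3⟩ | ⟨k1, k2, k3⟩) <;> linarith
      · refine ⟨⟨⟨by linarith, by linarith⟩, by linarith⟩, ?_⟩
        rintro (⟨k1, k2, k3⟩ | ⟨k1, k2, k3⟩) <;> linarith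
      · refine ⟨⟨⟨by linarith, by linarith⟩, by linarith⟩, ?_⟩
        rintro (⟨k1, k2, k3⟩ | ⟨k1, k2, k3⟩) <;> linarith
    · rintro ⟨⟨⟨h1, h2⟩, h3⟩, h4⟩
      push Not at h4
      obtain ⟨g1, g3⟩ := h4
      rcases lt_trichotomy y (3 - x) with hy | hy | hy
      · exact Or.inl ⟨⟨by linarith, by linarith⟩, by linarith⟩
      · exact absurd (by linarith) (g1 (by linarith) (by linarith))
      · rcases lt_trichotomy y (24 / 5 - 2 / 5 * x) with hz | hz | hz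
        · exact Or.inr (Or.inl ⟨⟨by linarith, by linarith⟩, by linarith⟩)
        · exact absurd (by linarith) (g3 (by linarith) (by linarith))
        · exact Or.inr (Or.inr ⟨⟨by linarith, by linarith⟩, by linarith⟩)

lemma iUnion_three (f : Fin 3 → Set (ℝ × ℝ)) : (⋃ i, f i) = f 0 ∪ (f 1 ∪ f 2) := by
  ext z
  simp [Fin.exists_fin_succ]

lemma iUnion_two (f : Fin 2 → Set (ℝ × ℝ)) : (⋃ i, f i) = f 0 ∪ f 1 := by
  ext z
  simp [Fin.exists_fin_succ]

/-- **MP_d05d56_co, Q1, answered in the negative.** -/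
theorem result :
    ∃ C : Set (ℝ × ℝ), IsCompact C ∧ Convex ℝ C ∧ (interior C).Nonempty ∧
      ∃ (P : ℝ × ℝ) (A : Fin 3 → ℝ × ℝ), ThreeRay C P A ∧
        ∀ i, ∃ B : Fin 2 → ℝ × ℝ, TwoRay C (A i) B ∧
          ∑ j, ed (A i) (B j) < ∑ j, ed P (A j) := by
  have hP : ((0, 2) : ℝ × ℝ) ∈ interior T := by rw [mem_int]; norm_num
  have f1 : ((3, 6) : ℝ × ℝ) ∈ frontier T := mem_frontier_T (by norm_num [T]) (by norm_num)
  have f2 : ((0, 6) : ℝ × ℝ) ∈ frontier T := mem_frontier_T (by norm_num [T]) (by norm_num)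
  have f3 : ((-3, 6) : ℝ × ℝ) ∈ frontier T := mem_frontier_T (by norm_num [T]) (by norm_num)
  have e1 : ((1, 2) : ℝ × ℝ) ∈ frontier T := mem_frontier_T (by norm_num [T]) (by norm_num)
  have e2 : ((-1, 2) : ℝ × ℝ) ∈ frontier T := mem_frontier_T (by norm_num [T]) (by norm_num)
  have e3 : ((-2, 4) : ℝ × ℝ) ∈ frontier T := mem_frontier_T (by norm_num [T]) (by norm_num)
  have e4 : ((2, 4) : ℝ × ℝ) ∈ frontier T := mem_frontier_T (by norm_num [T]) (by norm_num)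
  have s25 : Real.sqrt 25 = 5 := by
    rw [show (25 : ℝ) = 5 ^ 2 by norm_num]
    exact Real.sqrt_sq (by norm_num)
  have s16 : Real.sqrt 16 = 4 := by
    rw [show (16 : ℝ) = 4 ^ 2 by norm_num]
    exact Real.sqrt_sq (by norm_num)
  have s17 : Real.sqrt 17 < 5 := by
    rw [Real.sqrt_lt' (by norm_num)]
    norm_num
  have s32 : Real.sqrt 32 < 6 := by
    rw [Real.sqrt_lt' (by norm_num)]
    norm_num
  have s29 : Real.sqrt 29 < 6 := by
    rw [Real.sqrt_lt' (by norm_num)]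
    norm_num
  have hsum : ∑ j, ed (0, 2) ((![(3, 6), (0, 6), (-3, 6)] : Fin 3 → ℝ × ℝ) j) = 14 := by
    rw [Fin.sum_univ_three]
    change ed (0, 2) (3, 6) + ed (0, 2) (0, 6) + ed (0, 2) (-3, 6) = 14
    have a1 : ed (0, 2) (3, 6) = 5 := by rw [ed, ← s25]; norm_num
    have a2 : ed (0, 2) (0, 6) = 4 := by rw [ed, ← s16]; norm_num
    have a3 : ed (0, 2) (-3, 6) = 5 := by rw [ed, ← s25]; norm_num
    rw [a1, a2, a3]
    norm_num
  refine ⟨T, T_compact, T_convex, ⟨_, hP⟩, (0, 2), ![(3, 6), (0, 6), (-3, 6)],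
    ⟨hP, ?_, ?_⟩, ?_⟩
  · intro i
    fin_cases i
    · exact f1
    · exact f2
    · exact f3
  · rw [iUnion_three]
    exact cut_P
  · intro i
    fin_cases i
    · refine ⟨![(-1, 2), (-2, 4)], ⟨f1, ?_, ?_⟩, ?_⟩
      · intro j
        fin_cases j
        · exact e2
        · exact e3
      · rw [iUnion_two]
        exact cut_right
      · rw [hsum, Fin.sum_univ_two]
        change ed (3, 6) (-1, 2) + ed (3, 6) (-2, 4) < 14
        have a1 : ed (3, 6) (-1, 2) = Real.sqrt 32 := by rw [ed]; norm_num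
        have a2 : ed (3, 6) (-2, 4) = Real.sqrt 29 := by rw [ed]; norm_num
        rw [a1, a2]
        linarith
    · refine ⟨![(1, 2), (-1, 2)], ⟨f2, ?_, ?_⟩, ?_⟩
      · intro j
        fin_cases j
        · exact e1
        · exact e2
      · rw [iUnion_two]
        exact cut_mid
      · rw [hsum, Fin.sum_univ_two]
        change ed (0, 6) (1, 2) + ed (0, 6) (-1, 2) < 14
        have a1 : ed (0, 6) (1, 2) = Real.sqrt 17 := by rw [ed]; norm_num
        have a2 : ed (0, 6) (-1, 2) = Real.sqrt 17 := by rw [ed]; norm_num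
        rw [a1, a2]
        linarith
    · refine ⟨![(1, 2), (2, 4)], ⟨f3, ?_, ?_⟩, ?_⟩
      · intro j
        fin_cases j
        · exact e1
        · exact e4
      · rw [iUnion_two]
        exact cut_left
      · rw [hsum, Fin.sum_univ_two]
        change ed (-3, 6) (1, 2) + ed (-3, 6) (2, 4) < 14
        have a1 : ed (-3, 6) (1, 2) = Real.sqrt 32 := by rw [ed]; norm_num
        have a2 : ed (-3, 6) (2, 4) = Real.sqrt 29 := by rw [ed]; norm_num
        rw [a1, a2]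
        linarith

end Pool.Agent.Results.MP_d05d56_co.ThinTriangle
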